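import Pool.Agent.KS6_52.HZ.Num

/-!
# `P_n^2` of a Polya frequency sequence of order 2: no stability for any `n ≥ 15`
-/

set_option autoImplicit false

namespace Pool.Agent.Results.MP_cea7e0_an.EveryLength

open Pool.Agent.KS6_52.HZ (P IsPF)

/-- For every `n ≥ 15` some Polya frequency sequence `f_0, ..., f_n` of order 2 has a `P_n^2` with a
zero in the open right half-plane; and for every `M ≥ 0` and every large `n` some Polya frequency
sequence `f_0, ..., f_n` of order 2 has a `P_n^2` with a zero on the line `Re z = M`. -/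
theorem result :
    (∀ n : ℕ, 15 ≤ n → ∃ f : ℤ → ℝ, IsPF 2 n f ∧ P n 2 f ≠ 0 ∧
      ∃ z : ℂ, 0 < z.re ∧ Polynomial.aeval z (P n 2 f) = 0) ∧
    (∀ M : ℝ, 0 ≤ M → ∃ N : ℕ, ∀ n : ℕ, N ≤ n → ∃ f : ℤ → ℝ, IsPF 2 n f ∧ P n 2 f ≠ 0 ∧
      ∃ z : ℂ, z.re = M ∧ Polynomial.aeval z (P n 2 f) = 0) := by
  refine ⟨fun n hn => ?_, fun M hM => Pool.Agent.KS6_52.HZ.unbounded M hM⟩
  obtain ⟨f, h1, h2, z, h3, h4⟩ := Pool.Agent.KS6_52.HZ.fifteen hn
  exact ⟨f, h1, h2, z, by rw [h3]; norm_num, h4⟩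

end Pool.Agent.Results.MP_cea7e0_an.EveryLength
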